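import Pool.Agent.Run7.h893.NP.Few
import Pool.Agent.H340R2.LW2

/-!
# The theorem of Lindemann and Weierstrass over the periods of almost all fibres of mixed hypergeometric motives

Polynomials with algebraic coefficients in periods of varieties over the algebraic numbers are periods in the sense of
Kontsevich and Zagier. Is `e` one of them? The hand-ins for this question so far are about the periods of curves and of
1-motives. Here we consider motives of arbitrary weight and their extensions by mixed Tate motives.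

Let `θ^n f = z Q(θ) f` be a self-dual hypergeometric equation with maximally unipotent monodromy at `z = 0` (`Eqn`, see
`HypergeometricOrthogonal` of MP_57341d_ag; for example the Picard-Fuchs equations of the mirror families of elliptic curves,
K3 surfaces, Calabi-Yau threefolds and fourfolds with one parameter). The Frobenius series `∑_k a_k(ε) z^(k + ε)` solves
the equation `(θ^n - z Q(θ)) f = ε^n z^ε`. Its coefficients `f_0, …, f_{n-1}` at `ε^j` are a basis of the solutions, and the
higher coefficients solve the inhomogeneous equations `(θ^n - z Q(θ)) f_{n+j} = (log z)^j / j!` (truncated higher normal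
functions, see `HypergeometricNormalFunctions` of MP_1eadae_ag). The fibre at `z = 1 / t` of the mixed motive has the period
matrix `Ỹ(t) (Ω, W; 0, A)`, where `Ỹ(t) = (Y, U; 0, E)`, `Y = (θ^a f_b)(1 / t)`, `U = (θ^a f_{n+b})(1 / t)`, `E` is the
unipotent matrix of the powers of `-log t`, and the matrix `(Ω, W; 0, A)` of constants contains the periods of the limit
mixed motive. They are not known to be algebraically independent of `e` (for instance `π`, `ζ(3)`, logarithms), but the
matrix `Ωᵀ J Ω` of the polarization is simple: it is `(2πi)^(n-1)` times a rational matrix. We give weights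
`μ(b) ≠ 0` to the columns `b` of the period matrix and assume only that the matrices `Ωᵀ J Ω` and `A` have algebraic entries
after the columns (for `Ωᵀ J Ω` also the rows) have been divided by their weights; for example `μ(b) = (2πi)^((n-1)/2)` for the
first `n` columns and powers of `2πi` for the last `q` columns. The matrix `W` is arbitrary.

(1) Let `β_1, …, β_g` be distinct algebraic numbers. For almost all tuples of fibres the exponentials `e^(β_s)` are
linearly independent over the homogeneous polynomials of degree at most `δ`, with coefficients in a space of algebraic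
numbers of dimension at most `D`, in the numbers `log t_i` and all entries of the matrices `Ỹ_i(t_i) (Ω_i, W_i; 0, A_i)`: if
`∑ e^(β_s) R_s = 0`, and the product of the weights is the same for all the monomials of all `R_s`, then all the values
`R_s` are `0`. For `β_s = s`: `e` is not a quotient of such polynomials of the same weight, and not a root of an equation
of degree less than `g` over them. If all weights are `1` (`Ω_iᵀ J_i Ω_i` and `A_i` algebraic) then all polynomials are homogeneous.
(2) The same for numbers `ζ_s` which are linearly independent over an algebraically closed field `M` which contains `V` and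
the entries of the matrices divided by the weights; for example for the powers of `e` if `e` is transcendental over `ℚ(π)`,
with all weights `1` for the periods of the motives.
-/

set_option autoImplicit false

open Pool.Agent.Results.MP_57341d_ag.HypergeometricOrthogonal (Eqn)
open Pool.Agent.Results.MP_1eadae_ag.HypergeometricNormalFunctions (point Yfull)

namespace Pool.Agent.Results.MP_2cf66e_nt.HypergeometricExponentials

/-- the coordinates: for every `i` a number and a matrix -/
abbrev Coord {k : ℕ} (e : Fin k → Eqn) (q : Fin k → ℕ) : Type :=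
  Σ i : Fin k, Option ((Fin (e i).order ⊕ Fin (q i)) × (Fin (e i).order ⊕ Fin (q i)))

/-- the periods of the fibres: the numbers `log t_i` and the entries of the matrices `Ỹ_i(t_i) (Ω_i, W_i; 0, A_i)` -/
noncomputable def periods {k : ℕ} {e : Fin k → Eqn} {q : Fin k → ℕ} (Ω : ∀ i, Matrix (Fin (e i).order) (Fin (e i).order) ℂ)
    (W : ∀ i, Matrix (Fin (e i).order) (Fin (q i)) ℂ) (A : ∀ i, Matrix (Fin (q i)) (Fin (q i)) ℂ) (t : Fin k → ℕ) :
    Coord e q → ℂ :=
  point (fun i => ((Real.log (t i) : ℝ) : ℂ)) fun i => Yfull (e i) (q i) (t i) * Matrix.fromBlocks (Ω i) (W i) 0 (A i)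

/-- the weights of the coordinates: `μ_i(b)` for the entries of the column `b`, and `1` for `log t_i` -/
def weight {k : ℕ} {e : Fin k → Eqn} {q : Fin k → ℕ} (μ : ∀ i, Fin (e i).order ⊕ Fin (q i) → ℂ) : Coord e q → ℂ
  | ⟨_, none⟩ => 1
  | ⟨i, some p⟩ => μ i p.2

/-- The numbers `ζ_1, …, ζ_g` are linearly independent over the homogeneous polynomials of degree `≤ δ` with coefficients in
`V` in the coordinates of `v`: if `∑ ζ_s R_s(v) = 0`, and the product of the weights is the same number `κ` for all monomials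
of all `R_s`, then `R_s(v) = 0` for all `s`. -/
def Independent {k : ℕ} {e : Fin k → Eqn} {q : Fin k → ℕ} {g : ℕ} (δ : ℕ) (V : Submodule ℚ ℂ)
    (μ : ∀ i, Fin (e i).order ⊕ Fin (q i) → ℂ) (ζ : Fin g → ℂ) (v : Coord e q → ℂ) : Prop :=
  ∀ (κ : ℂ) (R : Fin g → MvPolynomial (Coord e q) ℂ), (∀ s, (R s).totalDegree ≤ δ) → (∀ s m, (R s).coeff m ∈ V) →
    (∀ s, ∀ m ∈ (R s).support, (m.prod fun c n => weight μ c ^ n) = κ) →
    ∑ s, ζ s * MvPolynomial.aeval v (R s) = 0 → ∀ s, MvPolynomial.aeval v (R s) = 0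

theorem li_exp {g : ℕ} {β : Fin g → ℂ} (hβ : Function.Injective β) (ha : ∀ s, IsAlgebraic ℚ (β s)) :
    LinearIndependent (algebraicClosure ℚ ℂ) fun s => Complex.exp (β s) := by
  rw [Fintype.linearIndependent_iff]
  intro c hc s
  have h2 := Pool.Agent.H340R2.LW.lindemann_weierstrass Finset.univ β (fun s => ((c s : algebraicClosure ℚ ℂ) : ℂ))
    (fun i _ => ha i)
    (fun i _ => (mem_algebraicClosure_iff (F := ℚ) (E := ℂ)).1 (c i).2) (fun i _ j _ hij => hβ hij)
    (by
      rw [← hc]
      exact Finset.sum_congr rfl fun i _ => rfl) s (Finset.mem_univ s)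
  exact Subtype.ext h2

theorem periods_eq {k : ℕ} {e : Fin k → Eqn} {q : Fin k → ℕ} {μ : ∀ i, Fin (e i).order ⊕ Fin (q i) → ℂ}
    (hμ : ∀ i c, μ i c ≠ 0) (Ω : ∀ i, Matrix (Fin (e i).order) (Fin (e i).order) ℂ)
    (W : ∀ i, Matrix (Fin (e i).order) (Fin (q i)) ℂ) (A : ∀ i, Matrix (Fin (q i)) (Fin (q i)) ℂ) (t : Fin k → ℕ)
    (c : Coord e q) : periods Ω W A t c = weight μ c *
      periods (fun i => Ω i * Matrix.diagonal fun b => (μ i (.inl b))⁻¹) (fun i => W i * Matrix.diagonal fun b => (μ i (.inr b))⁻¹)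
        (fun i => A i * Matrix.diagonal fun b => (μ i (.inr b))⁻¹) t c := by
  obtain ⟨i, _ | ⟨a, b⟩⟩ := c
  · show _ = 1 * _
    rw [one_mul]
    rfl
  · show (Yfull (e i) (q i) (t i) * Matrix.fromBlocks (Ω i) (W i) 0 (A i)) a b = μ i b * (Yfull (e i) (q i) (t i) *
      Matrix.fromBlocks (Ω i * Matrix.diagonal fun b => (μ i (.inl b))⁻¹) (W i * Matrix.diagonal fun b => (μ i (.inr b))⁻¹) 0
        (A i * Matrix.diagonal fun b => (μ i (.inr b))⁻¹)) a b
    have h1 : Matrix.fromBlocks (Ω i * Matrix.diagonal fun b => (μ i (.inl b))⁻¹) (W i * Matrix.diagonal fun b => (μ i (.inr b))⁻¹) 0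
        (A i * Matrix.diagonal fun b => (μ i (.inr b))⁻¹) =
        Matrix.fromBlocks (Ω i) (W i) 0 (A i) * Matrix.diagonal fun b => (μ i b)⁻¹ := by
      have h2 : (Matrix.diagonal fun b : Fin (e i).order ⊕ Fin (q i) => (μ i b)⁻¹) =
          Matrix.fromBlocks (Matrix.diagonal fun b => (μ i (.inl b))⁻¹) 0 0 (Matrix.diagonal fun b => (μ i (.inr b))⁻¹) := by
        rw [Matrix.fromBlocks_diagonal]
        congr 1
        funext b
        rcases b with b | b <;> rfl
      rw [h2, Matrix.fromBlocks_multiply]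
      simp
    rw [h1, ← Matrix.mul_assoc, Matrix.mul_diagonal, mul_comm, mul_assoc, inv_mul_cancel₀ (hμ i b), mul_one]

theorem aeval_scale {k : ℕ} {e : Fin k → Eqn} {q : Fin k → ℕ} {w v v' : Coord e q → ℂ} (hv : ∀ c, v c = w c * v' c) {κ : ℂ}
    (R : MvPolynomial (Coord e q) ℂ) (hR : ∀ m ∈ R.support, (m.prod fun c n => w c ^ n) = κ) :
    MvPolynomial.aeval v R = κ * MvPolynomial.aeval v' R := by
  rw [MvPolynomial.aeval_def, MvPolynomial.aeval_def, MvPolynomial.eval₂_eq, MvPolynomial.eval₂_eq, Finset.mul_sum]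
  refine Finset.sum_congr rfl fun m hm => ?_
  rw [← hR m hm, Finsupp.prod]
  have h1 : ∏ i ∈ m.support, v i ^ m i = (∏ i ∈ m.support, w i ^ m i) * ∏ i ∈ m.support, v' i ^ m i := by
    rw [← Finset.prod_mul_distrib]
    refine Finset.prod_congr rfl fun c _ => ?_
    rw [hv, mul_pow]
  rw [h1]
  ring

theorem indep_of {k : ℕ} {e : Fin k → Eqn} {q : Fin k → ℕ} {g : ℕ} {δ : ℕ} {V : Submodule ℚ ℂ}
    {μ : ∀ i, Fin (e i).order ⊕ Fin (q i) → ℂ} (hμ : ∀ i c, μ i c ≠ 0) {ζ : Fin g → ℂ}
    {Ω : ∀ i, Matrix (Fin (e i).order) (Fin (e i).order) ℂ} {W : ∀ i, Matrix (Fin (e i).order) (Fin (q i)) ℂ}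
    {A : ∀ i, Matrix (Fin (q i)) (Fin (q i)) ℂ} {t : Fin k → ℕ}
    (h : Run7.h893.NP.Indep δ V ζ (periods (fun i => Ω i * Matrix.diagonal fun b => (μ i (.inl b))⁻¹)
      (fun i => W i * Matrix.diagonal fun b => (μ i (.inr b))⁻¹) (fun i => A i * Matrix.diagonal fun b => (μ i (.inr b))⁻¹) t)) :
    Independent δ V μ ζ (periods Ω W A t) := by
  intro κ R hRd hRV hRκ h0 s
  have h1 : ∀ s, MvPolynomial.aeval (periods Ω W A t) (R s) = κ * MvPolynomial.aeval (periods
      (fun i => Ω i * Matrix.diagonal fun b => (μ i (.inl b))⁻¹) (fun i => W i * Matrix.diagonal fun b => (μ i (.inr b))⁻¹)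
        (fun i => A i * Matrix.diagonal fun b => (μ i (.inr b))⁻¹) t) (R s) :=
    fun s => aeval_scale (periods_eq hμ Ω W A t) (R s) (hRκ s)
  by_cases hκ : κ = 0
  · rw [h1, hκ, zero_mul]
  · rw [h1, h R hRd hRV ?_ s, mul_zero]
    simp only [h1] at h0
    have h2 : ∀ x y : ℂ, x * (κ * y) = κ * (x * y) := fun x y => by ring
    simp only [h2] at h0
    rw [← Finset.mul_sum] at h0
    exact (mul_eq_zero.1 h0).resolve_left hκ

/-- Let `e_i`, `1 ≤ i ≤ k`, be admissible self-dual hypergeometric equations of odd or even orders and `q_i ≥ 0`. For all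
`δ`, `D` and `g` there are `γ > 0` and `C` such that for every `ℚ`-space `V` of complex numbers of dimension `≤ D`, all
weights `μ_i(b) ≠ 0`, all invertible complex matrices `Ω_i` and `A_i`, all complex matrices `W_i` and every box
`∏_i (x_i, x_i + N]` with `x_i ≥ 1`: (1) if the elements of `V` and the numbers `(Ω_iᵀ J_i Ω_i)_{ab} / (μ_i(a) μ_i(b))` and
`(A_i)_{ab} / μ_i(b)` are algebraic and `β_1, …, β_g` are distinct algebraic numbers, then for all but
`C N^(k-1) ∑_i (1 + N / (x_i + N)^γ)` integral points `t` of the box the numbers `e^(β_s)` are linearly independent over the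
homogeneous polynomials of degree `≤ δ` with coefficients in `V` in the periods of the fibres at `1 / t_i`; (2) if all these
numbers are in an algebraically closed field `M`, this is the case for all numbers `ζ_s` which are linearly independent
over `M`. -/
theorem result (k : ℕ) (e : Fin k → Eqn) (he : ∀ i, (e i).Admissible) (q : Fin k → ℕ) (δ D g : ℕ) :
    ∃ γ C : ℝ, 0 < γ ∧ ∀ V : Submodule ℚ ℂ, Module.Finite ℚ V → Module.finrank ℚ V ≤ D →
      ∀ (μ : ∀ i, Fin (e i).order ⊕ Fin (q i) → ℂ) (Ω : ∀ i, Matrix (Fin (e i).order) (Fin (e i).order) ℂ)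
        (W : ∀ i, Matrix (Fin (e i).order) (Fin (q i)) ℂ) (A : ∀ i, Matrix (Fin (q i)) (Fin (q i)) ℂ),
      (∀ i c, μ i c ≠ 0) → (∀ i, (Ω i).det ≠ 0) → (∀ i, (A i).det ≠ 0) →
      ∀ (x : Fin k → ℕ) (N : ℕ), (∀ i, 1 ≤ x i) → 1 ≤ N →
      ((∀ v ∈ V, IsAlgebraic ℚ v) →
        (∀ i a b, IsAlgebraic ℚ (((Ω i).transpose * (e i).J * Ω i) a b / (μ i (.inl a) * μ i (.inl b)))) →
        (∀ i a b, IsAlgebraic ℚ (A i a b / μ i (.inr b))) →
        ∀ β : Fin g → ℂ, Function.Injective β → (∀ s, IsAlgebraic ℚ (β s)) →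
        (({t : Fin k → ℕ | (∀ i, x i < t i ∧ t i ≤ x i + N) ∧
          ¬ Independent δ V μ (fun s => Complex.exp (β s)) (periods Ω W A t)}.ncard : ℕ) : ℝ) ≤
          C * (N : ℝ) ^ (k - 1) * ∑ i, (1 + N / ((x i : ℝ) + N) ^ γ)) ∧
      (∀ M : IntermediateField ℚ ℂ, IsAlgClosed M → (∀ v ∈ V, v ∈ M) →
        (∀ i a b, ((Ω i).transpose * (e i).J * Ω i) a b / (μ i (.inl a) * μ i (.inl b)) ∈ M) →
        (∀ i a b, A i a b / μ i (.inr b) ∈ M) → ∀ ζ : Fin g → ℂ, LinearIndependent M ζ →
        (({t : Fin k → ℕ | (∀ i, x i < t i ∧ t i ≤ x i + N) ∧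
          ¬ Independent δ V μ ζ (periods Ω W A t)}.ncard : ℕ) : ℝ) ≤
          C * (N : ℝ) ^ (k - 1) * ∑ i, (1 + N / ((x i : ℝ) + N) ^ γ)) := by
  obtain ⟨γ, C, hγ, hmain⟩ := Run7.h893.NP.few_indep k e he q δ D g
  refine ⟨γ, C, hγ, ?_⟩
  intro V hVf hV μ Ω W A hμ hΩ hA x N hx hN
  have key : ∀ M : IntermediateField ℚ ℂ, IsAlgClosed M → (∀ v ∈ V, v ∈ M) →
      (∀ i a b, ((Ω i).transpose * (e i).J * Ω i) a b / (μ i (.inl a) * μ i (.inl b)) ∈ M) →
      (∀ i a b, A i a b / μ i (.inr b) ∈ M) → ∀ ζ : Fin g → ℂ, LinearIndependent M ζ →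
      (({t : Fin k → ℕ | (∀ i, x i < t i ∧ t i ≤ x i + N) ∧
        ¬ Independent δ V μ ζ (periods Ω W A t)}.ncard : ℕ) : ℝ) ≤
        C * (N : ℝ) ^ (k - 1) * ∑ i, (1 + N / ((x i : ℝ) + N) ^ γ) := by
    intro M hM hVM hQ hAM ζ hζ
    have h1 := hmain V hVf hV M hVM ζ hζ (fun i => Ω i * Matrix.diagonal fun b => (μ i (.inl b))⁻¹)
      (fun i => W i * Matrix.diagonal fun b => (μ i (.inr b))⁻¹) (fun i => A i * Matrix.diagonal fun b => (μ i (.inr b))⁻¹)
      (fun i => by
        rw [Matrix.det_mul, Matrix.det_diagonal]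
        exact mul_ne_zero (hΩ i) (Finset.prod_ne_zero_iff.2 fun b _ => inv_ne_zero (hμ i _)))
      (fun i => by
        rw [Matrix.det_mul, Matrix.det_diagonal]
        exact mul_ne_zero (hA i) (Finset.prod_ne_zero_iff.2 fun b _ => inv_ne_zero (hμ i _)))
      (fun i a b => by
        have h2 : ((Ω i * Matrix.diagonal fun b => (μ i (.inl b))⁻¹).transpose * (e i).J *
            (Ω i * Matrix.diagonal fun b => (μ i (.inl b))⁻¹)) a b =
            ((Ω i).transpose * (e i).J * Ω i) a b / (μ i (.inl a) * μ i (.inl b)) := by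
          rw [Matrix.transpose_mul, Matrix.diagonal_transpose, Matrix.mul_assoc, Matrix.mul_assoc, Matrix.diagonal_mul,
            ← Matrix.mul_assoc, ← Matrix.mul_assoc, Matrix.mul_diagonal, div_eq_mul_inv, mul_inv]
          ring
        rw [h2]
        exact hQ i a b)
      (fun i a b => by
        rw [Matrix.mul_diagonal, ← div_eq_mul_inv]
        exact hAM i a b) x N hx hN
    refine le_trans (Nat.cast_le.2 (Set.ncard_le_ncard ?_ ?_)) h1
    · rintro t ⟨hbox, hI⟩
      exact ⟨hbox, fun h => hI (indep_of hμ h)⟩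
    · refine (Set.finite_Iic (fun i : Fin k => x i + N)).subset ?_
      intro t ht i
      exact (ht.1 i).2
  constructor
  · intro hVa hQ hAa β hβ ha
    exact key (algebraicClosure ℚ ℂ) Run7.h893.NP.algcl (fun v hv => mem_algebraicClosure_iff.2 (hVa v hv))
      (fun i a b => mem_algebraicClosure_iff.2 (hQ i a b)) (fun i a b => mem_algebraicClosure_iff.2 (hAa i a b)) _
      (li_exp hβ ha)
  · exact key

end Pool.Agent.Results.MP_2cf66e_nt.HypergeometricExponentials
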