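import Pool.Agent.Run7.h10.QS.F3

/-!
One fibre decides: exponentials of algebraic numbers and the periods of the members of a family.

Let `f z i` be all the periods of the members `M_z` of an arbitrary family over an open subset `U` of `ℂ ^ X`. By
Picard, Fuchs and Gauss and Manin the partial derivatives of all orders of the functions `f_i` at a point `s₀` belong to the
field generated by `s₀` and by the periods of the single member `M_{s₀}`. Let `k` be a field which contains them. We prove that
if the number `e` is transcendental over `k`, then it is transcendental over the periods of almost all members of the family, in
growing degree and height: there are few algebraic points `s` at which `e` is the root of a nontrivial equation with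
coefficients in the ring of the periods of `M_s`, of degree and height up to a bound which tends to infinity. The dimension, the
degree and the monodromy of the family are arbitrary. So, if `e` is not algebraic over the periods of one variety `M`, then no
family which contains `M` can give `e` as a period, or as the root of an equation with periods as coefficients, at more than few
places; and if it is such a root at more than few places, then it is algebraic over the periods of every member.

The same is true for `e ^ α_i` with algebraic numbers `α_i` linearly independent over `ℚ`, and with the theorem of Lindemann
and Weierstrass the statement becomes unconditional: if `k` has transcendence degree `D`, at least `N - D` of `N` such numbers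
are independent over the periods of almost all members, and the choice of these numbers depends on `k` only, not on the family
which has some fibre with all its periods in `k`. Examples:

* `D = 0`: all functions with algebraic Taylor coefficients at one algebraic point, in particular all systems of
  `G`-functions: the number `e` and all the exponentials are transcendental over their values at almost all algebraic points;
* `D = 2`: the families of all abelian varieties of dimension `g`, for all `g`, as they contain a power of the curve
  `y ^ 2 = x ^ 3 - x` (here `k` is generated by `π` and `Γ(1/4)`);
* `D ≤ 1 + φ(m) / 2`: the families of all hypersurfaces of degree `m` and of an arbitrary dimension, as they contain the Fermat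
  varieties, whose periods are polynomials in `π`, `1 / π` and the numbers `Γ(a/m)`, `1 / Γ(a/m)`.

The proof. Suppose that numbers `ξ_j` are dependent over the field of the functions `f_i`: `∑ c_m(z) ξ ^ m = 0` with
polynomials `c_m` in `z` and the `f_i(z)`, not all of them zero. Restrict them to a line through `s₀` in an algebraic direction on
which some `c_m` is not zero, and compare the Taylor coefficients in `t`: this is a nontrivial relation over `k`. So numbers
independent over `k` are independent over the field of the functions, and the norm form and the Nullstellensatz argument of
the library `Run7/h10/QS`, with the count of the starting library `N207/GS`, give the result.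
-/

open NumberField

namespace Pool.Agent.Results.MP_2cf66e_nt.OnePointDecides

open Pool.Agent.Run7.h10.QS

/-- The point `s` and the partial derivatives of all orders of the functions `f_i` at `s` belong to the field `k`. For the
periods of a family over a curve or a higher dimensional base, `k` can be any field which contains the algebraic numbers, the
coordinates of `s` and the periods of the single fibre over `s`. -/
def FibreIn {X σ : Type} [Fintype X] [DecidableEq X] (k : IntermediateField (algebraicClosure ℚ ℂ) ℂ)
    (f : (X → ℂ) → σ → ℂ) (s : X → ℂ) : Prop :=
  (∀ i, s i ∈ k) ∧
    ∀ (i : σ) (n : ℕ) (e : Fin n → X), iteratedFDeriv ℂ n (fun z => f z i) s (fun l => Pi.single (e l) 1) ∈ k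

section
variable {X σ τ : Type} [Fintype X] (K : Type) [Field K] [NumberField K]

/-- The algebraic points `s` for which the numbers `ξ_j` satisfy a nontrivial relation `R(ξ, f(s)) = 0`: `R` is a polynomial of
degree at most `k` in each variable, its coefficients are integers of `K` all conjugates of which are at most `T ^ k`, and
`R(b, f(s)) ≠ 0` for some complex numbers `b_j`. -/
def Dependent (U : Set (X → ℂ)) (f : (X → ℂ) → σ → ℂ) (ξ : τ → ℂ) (io : K →+* ℂ) (k : ℕ) (T : ℝ) : Set (X → K) :=
  {s | s ∈ Points K U io k T ∧ ∃ R : MvPolynomial (τ ⊕ σ) (𝓞 K), Bounded K k T R ∧
    value io R (Sum.elim ξ (f fun i => io (s i))) = 0 ∧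
    ∃ b : τ → ℂ, value io R (Sum.elim b (f fun i => io (s i))) ≠ 0}

end

/-- Let `k` be a field between the algebraic numbers and `ℂ`, and let `α_1, …, α_N` be algebraic numbers which are linearly
independent over `ℚ`. There is a set `S` of indices with the following properties.

It is large: `S` has at least as many elements as each set `B` for which the numbers `exp α_i`, `i ∈ B`, are algebraically
independent over `k` (so `S` contains all the indices, if all these exponentials are independent over `k`), and `S` has at
least `N - D` elements, if `k` has transcendence degree at most `D` over the algebraic numbers.

And for **every** open connected subset `U` of `ℂ ^ X` and **every** analytic map `f : U → ℂ ^ σ` such that for **one** point `s₀`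
of `U` the coordinates of `s₀` and the partial derivatives of the `f_i` at `s₀` belong to `k`, there are few algebraic points `s`
in `U` at which the numbers `exp α_i`, `i ∈ S`, satisfy a nontrivial algebraic relation over the numbers `f_i(s)`: there is
`ω → ∞` such that for all large `T` and all number fields `K` of degree at most `ω T`, embedded in `ℂ`, the points over `K` of
height at most `T` (of norm at most `ω T` and distance at least `1 / ω T` from the complement of `U`) with a nontrivial relation
of degree at most `ω T` in each variable and with coefficients of size at most `T ^ ω T` lie on at most `T ^ (1 / ω T)`
hypersurfaces of degree at most `T ^ (1 / ω T)`, and there are at most `T ^ (1 / ω T) * M ^ (|X| - 1)` of them, `M` being the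
number of elements of `K` of height at most `T`. -/
theorem result (k : IntermediateField (algebraicClosure ℚ ℂ) ℂ) {N : ℕ} (α : Fin N → ℂ)
    (hα : ∀ i, IsAlgebraic ℚ (α i)) (hli : LinearIndependent ℚ α) :
    ∃ S : Finset (Fin N),
      (∀ B : Finset (Fin N), AlgebraicIndependent k (fun i : B => Complex.exp (α i)) → B.card ≤ S.card) ∧
      (∀ D : ℕ, Algebra.trdeg (algebraicClosure ℚ ℂ) k ≤ (D : Cardinal) → N ≤ S.card + D) ∧
      ∀ {X σ : Type} [Fintype X] [DecidableEq X] [Nonempty X] [Fintype σ] [DecidableEq σ] {U : Set (X → ℂ)},
        IsOpen U → IsPreconnected U → ∀ {f : (X → ℂ) → σ → ℂ}, (∀ i, AnalyticOnNhd ℂ (fun z => f z i) U) →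
          (∃ s ∈ U, FibreIn k f s) →
            Few fun K _ _ io k T => Dependent K U f (fun i : S => Complex.exp (α i)) io k T := by
  classical
  obtain ⟨S, hS1, hS2⟩ := (Finset.univ.filter fun B : Finset (Fin N) =>
    AlgebraicIndependent k (fun i : B => Complex.exp (α i))).exists_max_image Finset.card
    ⟨∅, by
      rw [Finset.mem_filter]
      refine ⟨Finset.mem_univ _, ?_⟩
      exact algebraicIndependent_empty_type_iff.2 (algebraMap k ℂ).injective⟩
  have hS3 := (Finset.mem_filter.1 hS1).2
  refine ⟨S, fun B hB => hS2 B (Finset.mem_filter.2 ⟨Finset.mem_univ _, hB⟩), fun D hD => ?_, ?_⟩
  · obtain ⟨B, hB1, hB2⟩ := exists_exp α hα hli k D hD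
    have h1 := hS2 B (Finset.mem_filter.2 ⟨Finset.mem_univ _, hB2⟩)
    omega
  · intro X σ _ _ _ _ _ U hUo hU f hf hs
    obtain ⟨s, hsU, hs1, hs2⟩ := hs
    refine law_few hU hUo ⟨s, hsU⟩ hf _ ?_
    exact genInd_of_point hU hUo hf _ k s hsU hs1
      (fun i v n => line_mem hUo (hf i) k s hsU (fun n e => hs2 i n e) v n) hS3

end Pool.Agent.Results.MP_2cf66e_nt.OnePointDecides
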