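import Pool.Agent.Run7.h788.NoNew
import Pool.Agent.R350.GV
import Pool.Agent.H340R2.LW2

/-!
# The theorem of Lindemann and Weierstrass with random 1-periods as coefficients

Polynomials with algebraic coefficients in logarithms of algebraic numbers, elliptic logarithms of
algebraic points and integrals of the second kind with algebraic end points on elliptic curves over the
algebraic numbers are periods in the sense of Kontsevich and Zagier (the periods of 1-motives with toric
and elliptic parts).  Is `e` one of them?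

Let `E_j = ℂ/Ω_j`, `j ≤ n₁`, be elliptic curves with complex multiplication and `E'_j = ℂ/Ω'_j`, `j ≤ n₂`,
ARBITRARY elliptic curves over the algebraic numbers (curves may be equal or isogenous), with integrals
`J_j(z) = σ_j ζ(z) + ρ_j z` of the second kind on `E'_j`.  Let `u_{j,1}, …, u_{j,k}` be elliptic logarithms
of ARBITRARY algebraic points of `E_j`, linearly independent over `End(E_j) ⊗ ℚ`, `v_{j,1}, …, v_{j,k}`
such elliptic logarithms for `E'_j`, and `λ_{j,1}, …, λ_{j,k}` (`j ≤ r`) logarithms of algebraic numbers,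
linearly independent over `ℚ`, and let

  `p_j = b_j + ∑_i (m_{j,i,0} + m_{j,i,1} α_j) u_{j,i}`,  `q_j = c_j + ∑_i m'_{j,i} v_{j,i}`,
  `y_j = τ_j + ∑_i m''_{j,i} λ_{j,i}`

with all the coefficients in a finite set `A` of integers.

**Theorem.** For all `n₁`, `n₂`, `r`, `N`, `D` there are `k₀`, `C` and `δ > 0` such that for all
`k ≥ k₀`, all these data, all `A` and ALL distinct algebraic numbers `β_1, …, β_N`, for
all but `C |A| ^ ((2 n₁ + n₂ + r) k - δ k)` of the coefficients: the points `p_j`, `q_j` are not in the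
lattices, `℘(p_j)`, `℘(q_j)` are algebraic, and there is a space `F` of dimension at most `C` of linear
forms in `1` and logarithms of algebraic numbers such that the `y_j` are linearly independent modulo `F`,
and such that for ARBITRARY further linear forms `l_1, …, l_t` in `1` and logarithms of algebraic numbers,
any number of them, chosen after the random points and linearly independent modulo `F` and the `y_j`:

  `e^{β_1} A_1(p, ζ(p), J(q), y, l) + … + e^{β_N} A_N(p, ζ(p), J(q), y, l) = 0`

implies `A_1 = … = A_N = 0`, for all polynomials `A_s` with algebraic coefficients of degree at most `D` in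
each of the numbers `p_j`, `ζ(p_j)`, `J_j(q_j)`, `y_j` and of total degree at most `1` in `l_1, …, l_t`.

For `N = 2`, `β = (0, 1)`: `e` is not a quotient `A / B` of such polynomials in the 1-periods (and by
Hermite and Lindemann for `B = 1` it is not such a polynomial); for `β = (0, 1, …, N - 1)`: `e` is not a
root of a polynomial of degree less than `N` whose coefficients are such polynomials in the 1-periods.

In the starting results of this problem the periods are those of curves of a family, for random members or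
members near a given point (`RandomPoints`, `LindemannWeierstrassRatios`, `NearEveryPoint`,
`BestApproximations`, …), or the periods of one variable (`OneVariablePeriods`).

**The proof.**  The theorem on random points and logarithms relative to a space of coefficients of
bounded dimension, `Pool.Agent.Run7.h788.rand_mix` (for the proof see `MP_4b482e_nt.RandomPoints`), for the
space generated by the exponentials `e^{β_s}`, and the theorem of Lindemann and Weierstrass.
-/

set_option autoImplicit false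

open scoped PeriodPair

noncomputable section

namespace Pool.Agent.Results.MP_2cf66e_nt.RandomOneMotives

/-- The field of algebraic numbers. -/
abbrev Qbar : IntermediateField ℚ ℂ := algebraicClosure ℚ ℂ

/-- The Weierstrass zeta function
`ζ(z) = 1/z + ∑_{l ≠ 0} (1/(z - l) + 1/l + z/l²)` (in Lean `1/0 = 0`, so that the term with `l = 0`
of the sum below is `1/z`). -/
def zetaW (L : PeriodPair) (z : ℂ) : ℂ := ∑' l : L.lattice, (1 / (z - l) + 1 / l + z / l ^ 2)

/-- `u` is an elliptic logarithm of an algebraic point (the elements of the lattice are allowed). -/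
def EllLog (L : PeriodPair) (u : ℂ) : Prop := u ∈ L.lattice ∨ IsAlgebraic ℚ (℘[L] u)

/-- `β` belongs to the field `k = End(ℂ/Ω) ⊗ ℚ`: some multiple `m β`, `m ≥ 1`, maps the lattice `Ω`
to itself. -/
def IsMult (L : PeriodPair) (β : ℂ) : Prop :=
  ∃ m : ℕ, 0 < m ∧ ∀ ω ∈ L.lattice, (m : ℂ) * β * ω ∈ L.lattice

/-- The numbers `w_j` are linearly independent over `k`. -/
def IndepMult (L : PeriodPair) {R : ℕ} (w : Fin R → ℂ) : Prop :=
  ∀ β : Fin R → ℂ, (∀ j, IsMult L (β j)) → ∑ j, β j * w j = 0 → ∀ j, β j = 0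

/-- The linear combinations, with algebraic coefficients, of `1` and logarithms of algebraic numbers. -/
def LogForms : Submodule Qbar ℂ :=
  Submodule.span Qbar ({1} ∪ {z : ℂ | IsAlgebraic ℚ (Complex.exp z)})

/-- A curve `ℂ/Ω` with complex multiplication by `α` over the algebraic numbers, with `k` elliptic
logarithms `u_i` of algebraic points which are linearly independent over `End ⊗ ℚ`, and an elliptic
logarithm `b` of an algebraic point. -/
structure CMGroup (k : ℕ) where
  /-- the lattice `Ω` -/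
  L : PeriodPair
  g2 : IsAlgebraic ℚ L.g₂
  g3 : IsAlgebraic ℚ L.g₃
  /-- the multiplication -/
  α : ℂ
  nonreal : α.im ≠ 0
  mult : ∀ ω ∈ L.lattice, α * ω ∈ L.lattice
  /-- the elliptic logarithms -/
  u : Fin k → ℂ
  alg : ∀ i, EllLog L (u i)
  indep : IndepMult L u
  /-- the shift -/
  b : ℂ
  algb : EllLog L b

/-- The random point `p = b + ∑_i (m_{i,0} + m_{i,1} α) u_i`. -/
def CMGroup.point {k : ℕ} (d : CMGroup k) (m : Fin k × Fin 2 → ℤ) : ℂ :=
  d.b + ∑ i, ((m (i, 0) : ℂ) + m (i, 1) * d.α) * d.u i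

/-- An arbitrary curve `ℂ/Ω` over the algebraic numbers, with `k` elliptic logarithms `v_i` of algebraic
points which are linearly independent over `End ⊗ ℚ`, an elliptic logarithm `c` of an algebraic point,
and an integral `σ ζ(z) + ρ z` of the second kind. -/
structure EllGroup (k : ℕ) where
  /-- the lattice `Ω` -/
  L : PeriodPair
  g2 : IsAlgebraic ℚ L.g₂
  g3 : IsAlgebraic ℚ L.g₃
  /-- the coefficient of `ζ` -/
  σ : ℂ
  /-- the coefficient of `z` -/
  ρ : ℂ
  algσ : IsAlgebraic ℚ σ
  algρ : IsAlgebraic ℚ ρ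
  ne : σ ≠ 0 ∨ ρ ≠ 0
  /-- the elliptic logarithms -/
  v : Fin k → ℂ
  alg : ∀ i, EllLog L (v i)
  indep : IndepMult L v
  /-- the shift -/
  c : ℂ
  algc : EllLog L c

/-- The random point `q = c + ∑_i m_i v_i`. -/
def EllGroup.point {k : ℕ} (e : EllGroup k) (m : Fin k → ℤ) : ℂ := e.c + ∑ i, (m i : ℂ) * e.v i

/-- The integral `J(z) = σ ζ(z) + ρ z`. -/
def EllGroup.J {k : ℕ} (e : EllGroup k) (z : ℂ) : ℂ := e.σ * zetaW e.L z + e.ρ * z

/-- `k` logarithms of algebraic numbers which are linearly independent over `ℚ`, and a linear form `τ` in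
`1` and logarithms of algebraic numbers. -/
structure LogGroup (k : ℕ) where
  /-- the logarithms -/
  lam : Fin k → ℂ
  alg : ∀ i, IsAlgebraic ℚ (Complex.exp (lam i))
  indep : LinearIndependent ℚ lam
  /-- the shift -/
  τ : ℂ
  algτ : τ ∈ LogForms

/-- The random logarithm `y = τ + ∑_i m_i λ_i`. -/
def LogGroup.point {k : ℕ} (f : LogGroup k) (m : Fin k → ℤ) : ℂ := f.τ + ∑ i, (m i : ℂ) * f.lam i

/-- `l_1, …, l_t` are linear forms in `1` and logarithms which are linearly independent modulo `F` and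
`y`. -/
def Further (F : Submodule Qbar ℂ) {n : ℕ} (y : Fin n → ℂ) {t : ℕ} (l : Fin t → ℂ) : Prop :=
  (∀ j, l j ∈ LogForms) ∧
  ∀ c : Fin t → Qbar, ∑ j, c j • l j ∈ F ⊔ Submodule.span Qbar (Set.range y) → ∀ j, c j = 0

/-- The degree in each of the first variables is at most `D`, and the total degree in the last group of
variables is at most `1`. -/
def Bounded {σ : Type} {n t : ℕ} (D : ℕ) (P : MvPolynomial (σ ⊕ (Fin n ⊕ Fin t)) Qbar) : Prop :=
  (∀ i, P.degreeOf (Sum.inl i) ≤ D) ∧ (∀ i, P.degreeOf (Sum.inr (Sum.inl i)) ≤ D) ∧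
  ∀ β ∈ P.support, ∑ j, β (Sum.inr (Sum.inr j)) ≤ 1

/-- The exponentials of the `β_s` are linearly independent over the polynomials of degree at most `D` in
`x`, `y` which are linear in further logarithms `l`. -/
def LindemannWeierstrass (F : Submodule Qbar ℂ) (D N : ℕ) (β : Fin N → ℂ) {σ : Type} (x : σ → ℂ)
    {n : ℕ} (y : Fin n → ℂ) : Prop :=
  ∀ (t : ℕ) (l : Fin t → ℂ), Further F y l →
    ∀ A : Fin N → MvPolynomial (σ ⊕ (Fin n ⊕ Fin t)) Qbar, (∀ s, Bounded D (A s)) →
      ∑ s, Complex.exp (β s) * MvPolynomial.aeval (Sum.elim x (Sum.elim y l)) (A s) = 0 →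
      ∀ s, A s = 0

/-- The coefficients of the random points. -/
abbrev Coeffs (n₁ n₂ r k : ℕ) : Type :=
  ((Fin n₁ → Fin k × Fin 2 → ℤ) × (Fin n₂ → Fin k → ℤ)) × (Fin r → Fin k → ℤ)

/-- All the coefficients are in `A`. -/
def coeffs (n₁ n₂ r k : ℕ) (A : Finset ℤ) : Finset (Coeffs n₁ n₂ r k) :=
  ((Fintype.piFinset fun _ => Fintype.piFinset fun _ => A) ×ˢ
    (Fintype.piFinset fun _ => Fintype.piFinset fun _ => A)) ×ˢ
    (Fintype.piFinset fun _ => Fintype.piFinset fun _ => A)

/-- The numbers `p_j`, `ζ(p_j)`, `J_j(q_j)`. -/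
def ellNumbers {n₁ n₂ r k : ℕ} (d : Fin n₁ → CMGroup k) (e : Fin n₂ → EllGroup k)
    (m : Coeffs n₁ n₂ r k) : (Fin n₁ ⊕ Fin n₁) ⊕ Fin n₂ → ℂ :=
  Sum.elim (Sum.elim (fun j => (d j).point (m.1.1 j))
    (fun j => zetaW (d j).L ((d j).point (m.1.1 j)))) (fun j => (e j).J ((e j).point (m.1.2 j)))

/-- The conclusion: the points are not in the lattices, they are algebraic, and the theorem of Lindemann
and Weierstrass holds for the random 1-periods and further logarithms. -/
def Good {n₁ n₂ r k : ℕ} (d : Fin n₁ → CMGroup k) (e : Fin n₂ → EllGroup k) (f : Fin r → LogGroup k)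
    (C D N : ℕ) (β : Fin N → ℂ) (m : Coeffs n₁ n₂ r k) : Prop :=
  (∀ j, (d j).point (m.1.1 j) ∉ (d j).L.lattice ∧ IsAlgebraic ℚ (℘[(d j).L] ((d j).point (m.1.1 j)))) ∧
  (∀ j, (e j).point (m.1.2 j) ∉ (e j).L.lattice ∧ IsAlgebraic ℚ (℘[(e j).L] ((e j).point (m.1.2 j)))) ∧
  ∃ F : Submodule Qbar ℂ, Module.Finite Qbar F ∧ Module.finrank Qbar F ≤ C ∧ F ≤ LogForms ∧
    (∀ c : Fin r → Qbar, ∑ i, c i • (f i).point (m.2 i) ∈ F → ∀ i, c i = 0) ∧
    LindemannWeierstrass F D N β (ellNumbers d e m) (fun j => (f j).point (m.2 j))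

open Classical in
/-- **Main result.** -/
theorem result (n₁ n₂ r N D : ℕ) : ∃ (k₀ C : ℕ) (δ : ℝ), 0 < δ ∧ ∀ k ≥ k₀,
    ∀ (d : Fin n₁ → CMGroup k) (e : Fin n₂ → EllGroup k) (f : Fin r → LogGroup k),
    ∀ A : Finset ℤ, A.Nonempty →
    ∀ β : Fin N → ℂ, Function.Injective β → (∀ s, IsAlgebraic ℚ (β s)) →
    (((coeffs n₁ n₂ r k A).filter (fun m => ¬ Good d e f C D N β m)).card : ℝ) ≤
      C * (A.card : ℝ) ^ (((2 * n₁ + n₂ + r) * k : ℝ) - δ * k) := by
  obtain ⟨k₀, C, δ, hδ, h⟩ := Run7.h788.rand_mix n₁ n₂ r D N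
  refine ⟨k₀, C, δ, hδ, fun k hk d e f A hA β hβ hβa => ?_⟩
  let d' : Fin n₁ → Pool.Agent.Y918.EL.CM := fun j =>
    { L := (d j).L
      g2 := (d j).g2
      g3 := (d j).g3
      α := (d j).α
      hα := (d j).nonreal
      hm := (d j).mult }
  let e' : Fin n₂ → Pool.Agent.Y918.EL.SK := fun j =>
    { L := (e j).L
      g2 := (e j).g2
      g3 := (e j).g3
      σ := (e j).σ
      ρ := (e j).ρ
      hσ := (e j).algσ
      hρ := (e j).algρ
      hne := (e j).ne }
  obtain ⟨hW, hWN⟩ := Run7.h788.span_bound (κ := Qbar) (fun s => Complex.exp (β s))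
  have h1 := h k hk d' (fun j => (d j).u)
    (fun j => ⟨(d j).alg, fun β hβ h0 => funext fun i => (d j).indep β hβ h0 i⟩) (fun j => (d j).b)
    (fun j => (d j).algb) e' (fun j => (e j).v)
    (fun j => ⟨(e j).alg, fun β hβ h0 => funext fun i => (e j).indep β hβ h0 i⟩) (fun j => (e j).c)
    (fun j => (e j).algc) (fun j => (f j).lam)
    (fun j i => Pool.Agent.H301R2.SSE.Lt_log ((f j).alg i))
    (fun j => Pool.Agent.R350.li_complex _ (f j).alg (f j).indep) (fun j => (f j).τ)
    (fun j => (f j).algτ) A hA _ hW hWN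
  have hli : LinearIndependent Qbar (fun s => Complex.exp (β s)) := by
    rw [Fintype.linearIndependent_iff]
    intro c hc s
    have h2 := Pool.Agent.H340R2.LW.lindemann_weierstrass Finset.univ β (fun s => ((c s : Qbar) : ℂ))
      (fun i _ => hβa i)
      (fun i _ => (mem_algebraicClosure_iff (F := ℚ) (E := ℂ)).1 (c i).2) (fun i _ j _ hij => hβ hij)
      (by
        rw [← hc]
        exact Finset.sum_congr rfl fun i _ => rfl) s (Finset.mem_univ s)
    exact Subtype.ext h2
  refine le_trans (Nat.cast_le.2 (Finset.card_le_card ?_)) h1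
  intro m hm
  rw [Finset.mem_filter] at hm ⊢
  refine ⟨hm.1, fun hG => hm.2 ?_⟩
  obtain ⟨⟨hp, hq, -⟩, F, hF1, hF2, hF3, hF4⟩ := hG
  have he : Run7.h788.ellN d' (fun j => (d j).b) (fun j => (d j).u) e' (fun j => (e j).c)
      (fun j => (e j).v) m.1 = ellNumbers d e m := by
    funext i
    rcases i with (i | i) | i
    · rfl
    · exact Pool.Agent.W245.EB.zt_of_notMem (hp i).1
    · have h5 : Pool.Agent.W245.EB.zt (e i).L ((e i).point (m.1.2 i)) =
          zetaW (e i).L ((e i).point (m.1.2 i)) := Pool.Agent.W245.EB.zt_of_notMem (hq i).1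
      change (e i).σ * Pool.Agent.W245.EB.zt (e i).L ((e i).point (m.1.2 i)) +
          (e i).ρ * (e i).point (m.1.2 i) =
        (e i).σ * zetaW (e i).L ((e i).point (m.1.2 i)) + (e i).ρ * (e i).point (m.1.2 i)
      rw [h5]
  rw [he] at hF4
  refine ⟨fun j => ⟨(hp j).1, (hp j).2.resolve_left (hp j).1⟩,
    fun j => ⟨(hq j).1, (hq j).2.resolve_left (hq j).1⟩, F, hF1, hF2, hF3, hF4.1, ?_⟩
  intro t l hl P hP h0
  exact Run7.h788.linear_of hli hF4 t l hl.1 hl.2 P (fun s i => (hP s).1 i)
    (fun s i => (hP s).2.1 i) (fun s => (hP s).2.2) h0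

end Pool.Agent.Results.MP_2cf66e_nt.RandomOneMotives
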